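import Pool.Agent.helper64.PB.SpecB

set_option autoImplicit false

namespace Pool.Agent.PB

theorem IDM_gate {G : Set Gate} {g : Gate} (hg : g ∈ G) : InCl G g.2 := by
  refine ⟨1, [g.2], ?_, le_refl _, Or.inl (by simp)⟩
  have := Prog.step (G := G) (n := g.1) [] g (fun i => fun x => x i) Prog.nil hg
    (fun i => Or.inr ⟨i, rfl⟩)
  exact this

theorem IDM_bf2 (f h : BF 2) (h0 : f ![false, false] = h ![false, false])
    (h1 : f ![true, false] = h ![true, false]) (h2 : f ![false, true] = h ![false, true])
    (h3 : f ![true, true] = h ![true, true]) : f = h := by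
  funext x
  have hx : x = ![x 0, x 1] := by
    funext i; fin_cases i <;> rfl
  rw [hx]
  cases x 0 <;> cases x 1 <;> assumption

theorem IDM_or (hCLP : CLP_stmt) (G : Set Gate)
    (hid : ∀ g ∈ G, g.2 (fun _ => false) = false ∧ g.2 (fun _ => true) = true)
    (hI : ∃ g ∈ G, ¬ Inter 2 g.2) (hA : InCl G fAnd) : InCl G fOr := by
  obtain ⟨g, hg, hgI⟩ := hI
  unfold Inter at hgI
  push Not at hgI
  obtain ⟨a, ha, hn⟩ := hgI
  have hn' : ∀ i, a 0 i = true → a 1 i = false := by
    intro i h0
    obtain ⟨j, hj⟩ := hn i
    fin_cases j
    · exact absurd h0 hj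
    · simpa using hj
  let φ : Fin g.1 → BF 2 := fun i => if a 0 i = true then (fun x => x 0) else
    if a 1 i = true then (fun x => x 1) else fAnd
  have hφ : ∀ i, InCl G (φ i) := by
    intro i
    show InCl G (if a 0 i = true then (fun x => x 0) else
      if a 1 i = true then (fun x => x 1) else fAnd)
    split_ifs
    · exact hCLP.1 G 2 0
    · exact hCLP.1 G 2 1
    · exact hA
  have h := hCLP.2 G g.1 2 g.2 φ (IDM_gate hg) hφ
  have e : (fun x => g.2 fun i => φ i x) = fOr := by
    apply IDM_bf2
    · have : (fun i => φ i ![false, false]) = fun _ => false := by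
        funext i
        show (if a 0 i = true then (fun x => x 0) else
          if a 1 i = true then (fun x => x 1) else fAnd : BF 2) ![false, false] = false
        split_ifs <;> rfl
      show g.2 (fun i => φ i ![false, false]) = false
      rw [this]; exact (hid g hg).1
    · have : (fun i => φ i ![true, false]) = a 0 := by
        funext i
        show (if a 0 i = true then (fun x => x 0) else
          if a 1 i = true then (fun x => x 1) else fAnd : BF 2) ![true, false] = a 0 i
        split_ifs with h1 h2
        · rw [h1]; rfl
        · rw [Bool.not_eq_true] at h1; rw [h1]; rfl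
        · rw [Bool.not_eq_true] at h1; rw [h1]; rfl
      show g.2 (fun i => φ i ![true, false]) = true
      rw [this]; exact ha 0
    · have : (fun i => φ i ![false, true]) = a 1 := by
        funext i
        show (if a 0 i = true then (fun x => x 0) else
          if a 1 i = true then (fun x => x 1) else fAnd : BF 2) ![false, true] = a 1 i
        split_ifs with h1 h2
        · rw [hn' i h1]; rfl
        · rw [h2]; rfl
        · rw [Bool.not_eq_true] at h2; rw [h2]; rfl
      show g.2 (fun i => φ i ![false, true]) = true
      rw [this]; exact ha 1
    · have : (fun i => φ i ![true, true]) = fun _ => true := by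
        funext i
        show (if a 0 i = true then (fun x => x 0) else
          if a 1 i = true then (fun x => x 1) else fAnd : BF 2) ![true, true] = true
        split_ifs <;> rfl
      show g.2 (fun i => φ i ![true, true]) = true
      rw [this]; exact (hid g hg).2
  rw [← e]; exact h

theorem IDM (hCLP : CLP_stmt) (hPRP : PRP_stmt) (hDUA : DUA_stmt) : IDM_stmt := by
  intro G hid hS hI hI'
  obtain ⟨hdd, -, -, hsz, -⟩ := hDUA
  have hidD : ∀ g ∈ dualB G, g.2 (fun _ => false) = false ∧ g.2 (fun _ => true) = true := by
    intro g hg
    have h := hid _ hg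
    simp only [dual] at h
    simp at h
    exact ⟨h.2, h.1⟩
  have dA : dual fAnd = fOr := by
    apply IDM_bf2 <;> rfl
  have dO : dual fOr = fAnd := by
    apply IDM_bf2 <;> rfl
  have key : InCl G fAnd ∨ InCl G fOr := by
    obtain ⟨g, hg, hgS⟩ := hS
    unfold SelfDual at hgS
    push Not at hgS
    obtain ⟨a, ha⟩ := hgS
    have ha' : g.2 (fun i => !(a i)) = g.2 a := by
      cases h1 : g.2 (fun i => !(a i)) <;> cases h2 : g.2 a <;> rw [h1, h2] at ha <;>
        first | rfl | exact absurd rfl ha
    let φ : Fin g.1 → BF 2 := fun i => if a i = true then (fun x => x 0) else (fun x => x 1)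
    have hφ : ∀ i, InCl G (φ i) := by
      intro i
      show InCl G (if a i = true then (fun x => x 0) else (fun x => x 1))
      split_ifs
      · exact hCLP.1 G 2 0
      · exact hCLP.1 G 2 1
    have h := hCLP.2 G g.1 2 g.2 φ (IDM_gate hg) hφ
    have e0 : (fun i => φ i ![false, false]) = fun _ => false := by
      funext i
      show (if a i = true then (fun x => x 0) else (fun x => x 1) : BF 2) ![false, false] = false
      split_ifs <;> rfl
    have e3 : (fun i => φ i ![true, true]) = fun _ => true := by
      funext i
      show (if a i = true then (fun x => x 0) else (fun x => x 1) : BF 2) ![true, true] = true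
      split_ifs <;> rfl
    have e1 : (fun i => φ i ![true, false]) = a := by
      funext i
      show (if a i = true then (fun x => x 0) else (fun x => x 1) : BF 2) ![true, false] = a i
      split_ifs with h1
      · rw [h1]; rfl
      · rw [Bool.not_eq_true] at h1; rw [h1]; rfl
    have e2 : (fun i => φ i ![false, true]) = fun i => !(a i) := by
      funext i
      show (if a i = true then (fun x => x 0) else (fun x => x 1) : BF 2) ![false, true] = !(a i)
      split_ifs with h1
      · rw [h1]; rfl
      · rw [Bool.not_eq_true] at h1; rw [h1]; rfl
    cases hc : g.2 a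
    · left
      have e : (fun x => g.2 fun i => φ i x) = fAnd := by
        apply IDM_bf2
        · show g.2 (fun i => φ i ![false, false]) = false
          rw [e0]; exact (hid g hg).1
        · show g.2 (fun i => φ i ![true, false]) = false
          rw [e1]; exact hc
        · show g.2 (fun i => φ i ![false, true]) = false
          rw [e2, ha']; exact hc
        · show g.2 (fun i => φ i ![true, true]) = true
          rw [e3]; exact (hid g hg).2
      rw [← e]; exact h
    · right
      have e : (fun x => g.2 fun i => φ i x) = fOr := by
        apply IDM_bf2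
        · show g.2 (fun i => φ i ![false, false]) = false
          rw [e0]; exact (hid g hg).1
        · show g.2 (fun i => φ i ![true, false]) = true
          rw [e1]; exact hc
        · show g.2 (fun i => φ i ![false, true]) = true
          rw [e2, ha']; exact hc
        · show g.2 (fun i => φ i ![true, true]) = true
          rw [e3]; exact (hid g hg).2
      rw [← e]; exact h
  rcases key with hA | hO
  · exact ⟨hA, IDM_or hCLP G hid hI hA⟩
  · have hAD : InCl (dualB G) fAnd := by
      obtain ⟨s, hs⟩ := hO
      refine ⟨s, ?_⟩
      rw [← dO]
      exact (hsz G 2 fOr s).2 hs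
    obtain ⟨s, hs⟩ := IDM_or hCLP (dualB G) hidD hI' hAD
    refine ⟨⟨s, ?_⟩, hO⟩
    rw [← dA] at hs
    exact (hsz G 2 fAnd s).1 hs

end Pool.Agent.PB
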